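import Pool.Agent.Helper44_Dio.Rol

/-! # DIO, module HIN: Hermite interpolation with a crude bound -/

set_option autoImplicit false

namespace Pool.Agent.DIO.H44

open Pool.Agent.DIO

/-- The confluent Vandermonde matrix: rows `(l, i)`, columns `j`. -/
def hMat (h k : ℕ) : Matrix (Fin (h * k)) (Fin (h * k)) ℤ := fun r j =>
  (((j : ℕ).descFactorial ((finProdFinEquiv.symm r).2 : ℕ) *
    (((finProdFinEquiv.symm r).1 : ℕ) + 1) ^ ((j : ℕ) - ((finProdFinEquiv.symm r).2 : ℕ)) : ℕ) : ℤ)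

/-- The polynomial with coefficients `c`. -/
noncomputable def polyOf {n : ℕ} (c : Fin n → ℝ) : Polynomial ℝ :=
  ∑ j : Fin n, Polynomial.C (c j) * Polynomial.X ^ (j : ℕ)

theorem polyOf_natDegree {n : ℕ} (hn : 0 < n) (c : Fin n → ℝ) : (polyOf c).natDegree < n := by
  unfold polyOf
  refine lt_of_le_of_lt (Polynomial.natDegree_sum_le _ _) ?_
  rw [Finset.fold_max_lt]
  refine ⟨hn, fun j _ => ?_⟩
  exact lt_of_le_of_lt (Polynomial.natDegree_C_mul_X_pow_le _ _) j.2

theorem polyOf_deriv {n : ℕ} (c : Fin n → ℝ) (i : ℕ) (x : ℝ) :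
    (Polynomial.derivative^[i] (polyOf c)).eval x =
      ∑ j : Fin n, c j * (((j : ℕ).descFactorial i : ℕ) : ℝ) * x ^ ((j : ℕ) - i) := by
  unfold polyOf
  rw [Polynomial.iterate_derivative_sum, Polynomial.eval_finsetSum]
  apply Finset.sum_congr rfl
  intro j _
  rw [Polynomial.iterate_derivative_C_mul, Polynomial.iterate_derivative_X_pow_eq_natCast_mul,
    Polynomial.eval_mul, Polynomial.eval_C, Polynomial.eval_mul, Polynomial.eval_natCast,
    Polynomial.eval_pow, Polynomial.eval_X, mul_assoc]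

theorem polyOf_eval {n : ℕ} (c : Fin n → ℝ) (x : ℝ) :
    (polyOf c).eval x = ∑ j : Fin n, c j * x ^ (j : ℕ) := by
  have := polyOf_deriv c 0 x
  simp only [Function.iterate_zero, id_eq, Nat.descFactorial_zero, Nat.cast_one, mul_one,
    Nat.sub_zero] at this
  exact this

theorem polyOf_coeff {n : ℕ} (c : Fin n → ℝ) (j : Fin n) : (polyOf c).coeff j = c j := by
  unfold polyOf
  rw [Polynomial.finsetSum_coeff, Finset.sum_eq_single j]
  · rw [Polynomial.coeff_C_mul_X_pow, if_pos rfl]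
  · intro b _ hb
    rw [Polynomial.coeff_C_mul_X_pow, if_neg (fun e => hb (Fin.ext e.symm))]
  · intro hj
    exact absurd (Finset.mem_univ j) hj

theorem mulVec_eq (h k : ℕ) (c : Fin (h * k) → ℝ) (r : Fin (h * k)) :
    ((hMat h k).map (Int.cast : ℤ → ℝ)).mulVec c r =
      (Polynomial.derivative^[((finProdFinEquiv.symm r).2 : ℕ)] (polyOf c)).eval
        ((((finProdFinEquiv.symm r).1 : ℕ) + 1 : ℕ) : ℝ) := by
  rw [polyOf_deriv, Matrix.mulVec_eq_sum, Finset.sum_apply]
  apply Finset.sum_congr rfl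
  intro j _
  simp only [Pi.smul_apply, Matrix.map_apply, MulOpposite.smul_eq_mul_unop,
    MulOpposite.unop_op, Matrix.transpose_apply, hMat]
  push_cast
  ring

/-- A polynomial with too many zeros. -/
theorem eq_zero_of_zeros (h k : ℕ) (hk : 1 ≤ k) (P : Polynomial ℝ) (hdeg : P.natDegree < h * k)
    (hz : ∀ l i : ℕ, 1 ≤ l → l ≤ h → i < k → (Polynomial.derivative^[i] P).eval (l : ℝ) = 0) :
    P = 0 := by
  by_contra hP
  have hdvd : wP h k ∣ P := by
    unfold wP
    apply Finset.prod_dvd_of_coprime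
    · intro l _ l' _ hll
      apply IsCoprime.pow
      apply Polynomial.pairwise_coprime_X_sub_C (s := fun l : ℕ => (l : ℝ)) Nat.cast_injective hll
    · intro l hl
      rw [Finset.mem_Icc] at hl
      rw [← Polynomial.le_rootMultiplicity_iff hP]
      obtain ⟨k', rfl⟩ : ∃ k', k = k' + 1 := ⟨k - 1, by omega⟩
      apply Nat.succ_le_of_lt
      rw [Polynomial.lt_rootMultiplicity_iff_isRoot_iterate_derivative hP]
      intro m hm
      exact hz l m hl.1 hl.2 (by omega)
  have := Polynomial.natDegree_le_of_dvd hdvd hP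
  rw [wP_natDegree] at this
  omega

theorem det_ne_zero (h k : ℕ) (hh : 1 ≤ h) (hk : 1 ≤ k) : (hMat h k).det ≠ 0 := by
  intro hdet
  have h1 : ((hMat h k).map (Int.cast : ℤ → ℝ)).det = 0 := by
    have := (Int.castRingHom ℝ).map_det (hMat h k)
    rw [hdet, map_zero] at this
    exact this.symm
  obtain ⟨v, hv, hv0⟩ := Matrix.exists_mulVec_eq_zero_iff.2 h1
  apply hv
  have hn : 0 < h * k := Nat.mul_pos hh hk
  have h2 : polyOf v = 0 := by
    apply eq_zero_of_zeros h k hk _ (polyOf_natDegree hn v)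
    intro l i hl1 hl2 hi
    have h3 := congrFun hv0 (finProdFinEquiv (⟨l - 1, by omega⟩, ⟨i, hi⟩))
    rw [mulVec_eq, Equiv.symm_apply_apply] at h3
    have h4 : l - 1 + 1 = l := by omega
    simp only [h4] at h3
    exact h3
  ext j
  rw [← polyOf_coeff v j, h2]
  simp

theorem entry_le (h k : ℕ) (hh : 1 ≤ h) (hk : 1 ≤ k) (r j : Fin (h * k)) :
    |hMat h k r j| ≤ ((h * k : ℕ) : ℤ) ^ (h * k) := by
  unfold hMat
  set i : ℕ := ((finProdFinEquiv.symm r).2 : ℕ)
  set l : ℕ := ((finProdFinEquiv.symm r).1 : ℕ) with hl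
  have hlh : l + 1 ≤ h := (finProdFinEquiv.symm r).1.2
  rw [abs_of_nonneg (by positivity)]
  rcases Nat.lt_or_ge (j : ℕ) i with hij | hij
  · rw [Nat.descFactorial_eq_zero_iff_lt.2 hij, zero_mul]
    positivity
  · have h1 : (j : ℕ).descFactorial i ≤ (h * k) ^ i :=
      (Nat.descFactorial_le_pow _ _).trans (Nat.pow_le_pow_left j.2.le _)
    have h2 : (l + 1) ^ ((j : ℕ) - i) ≤ (h * k) ^ ((j : ℕ) - i) :=
      Nat.pow_le_pow_left (hlh.trans (Nat.le_mul_of_pos_right h hk)) _
    have h3 : (j : ℕ).descFactorial i * (l + 1) ^ ((j : ℕ) - i) ≤ (h * k) ^ (h * k) := by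
      calc _ ≤ (h * k) ^ i * (h * k) ^ ((j : ℕ) - i) := Nat.mul_le_mul h1 h2
        _ = (h * k) ^ (j : ℕ) := by rw [← pow_add]; congr 1; omega
        _ ≤ (h * k) ^ (h * k) := Nat.pow_le_pow_right (Nat.mul_pos hh hk) j.2.le
    exact_mod_cast h3

theorem adj_le (h k : ℕ) (hh : 1 ≤ h) (hk : 1 ≤ k) (r j : Fin (h * k)) :
    |(hMat h k).adjugate r j| ≤
      ((h * k : ℕ) : ℤ) ^ (h * k) * (((h * k : ℕ) : ℤ) ^ (h * k)) ^ (h * k) := by
  rw [Matrix.adjugate_apply]
  have hn : 0 < h * k := Nat.mul_pos hh hk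
  have h1 := Matrix.det_le (A := (hMat h k).updateRow j (Pi.single r 1))
    (abv := AbsoluteValue.abs) (x := ((h * k : ℕ) : ℤ) ^ (h * k)) (by
      intro a b
      rw [AbsoluteValue.abs_apply, Matrix.updateRow_apply]
      split_ifs with hab
      · have h2 : |(Pi.single r (1 : ℤ) : Fin (h * k) → ℤ) b| ≤ 1 := by
          by_cases hb : b = r
          · subst hb; simp
          · rw [Pi.single_eq_of_ne hb]; simp
        refine h2.trans ?_
        have : (1 : ℕ) ≤ (h * k) ^ (h * k) := Nat.one_le_pow _ _ hn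
        exact_mod_cast this
      · exact entry_le h k hh hk a b)
  rw [AbsoluteValue.abs_apply, Fintype.card_fin] at h1
  refine h1.trans ?_
  rw [nsmul_eq_mul]
  apply mul_le_mul_of_nonneg_right _ (by positivity)
  have : (h * k).factorial ≤ (h * k) ^ (h * k) := Nat.factorial_le_pow _
  exact_mod_cast this

theorem hin : HinStatement := by
  intro h k hh hk d η hη hd
  have hn : 0 < h * k := Nat.mul_pos hh hk
  set n : ℕ := h * k with hndef
  set D : ℤ := (hMat h k).det with hD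
  have hD0 : D ≠ 0 := det_ne_zero h k hh hk
  have hDr : (D : ℝ) ≠ 0 := by exact_mod_cast hD0
  set A : Matrix (Fin (h * k)) (Fin (h * k)) ℝ := (hMat h k).map (Int.cast : ℤ → ℝ) with hA
  set Adj : Matrix (Fin (h * k)) (Fin (h * k)) ℝ := (hMat h k).adjugate.map (Int.cast : ℤ → ℝ)
    with hAdj
  have hmul : A * Adj = (D : ℝ) • (1 : Matrix (Fin (h * k)) (Fin (h * k)) ℝ) := by
    have h1 := Matrix.mul_adjugate (hMat h k)
    have h2 := congrArg (fun X : Matrix (Fin (h * k)) (Fin (h * k)) ℤ => X.map (Int.cast : ℤ → ℝ)) h1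
    have h3 : ((hMat h k) * (hMat h k).adjugate).map (Int.cast : ℤ → ℝ) = A * Adj :=
      Matrix.map_mul (f := Int.castRingHom ℝ)
    rw [h3] at h2
    rw [h2]
    ext a b
    simp only [Matrix.map_apply, Matrix.smul_apply, Matrix.one_apply, smul_eq_mul]
    split_ifs <;> simp [hD]
  let dv : Fin (h * k) → ℝ := fun r =>
    d (((finProdFinEquiv.symm r).1 : ℕ) + 1) ((finProdFinEquiv.symm r).2 : ℕ)
  have hdv : ∀ r, |dv r| ≤ η := fun r =>
    hd _ _ (Nat.le_add_left 1 _) (finProdFinEquiv.symm r).1.2 (finProdFinEquiv.symm r).2.2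
  let c : Fin (h * k) → ℝ := fun j => (D : ℝ)⁻¹ * Adj.mulVec dv j
  have hAc : A.mulVec c = dv := by
    have h1 : c = (D : ℝ)⁻¹ • Adj.mulVec dv := rfl
    rw [h1, Matrix.mulVec_smul, Matrix.mulVec_mulVec, hmul, Matrix.smul_mulVec, Matrix.one_mulVec,
      smul_smul, inv_mul_cancel₀ hDr, one_smul]
  set E : ℝ := ((n : ℝ) ^ n * ((n : ℝ) ^ n) ^ n) with hE
  have hE0 : 0 ≤ E := by positivity
  have hDinv : |(D : ℝ)⁻¹| ≤ 1 := by
    rw [abs_inv]
    apply inv_le_one_of_one_le₀
    have : (1 : ℤ) ≤ |D| := Int.one_le_abs hD0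
    exact_mod_cast this
  have hadj : ∀ r j, |Adj r j| ≤ E := by
    intro r j
    have h1 := adj_le h k hh hk r j
    have h2 : ((|(hMat h k).adjugate r j| : ℤ) : ℝ) ≤
        ((((h * k : ℕ) : ℤ) ^ (h * k) * (((h * k : ℕ) : ℤ) ^ (h * k)) ^ (h * k) : ℤ) : ℝ) := by
      exact_mod_cast h1
    rw [hAdj, Matrix.map_apply, ← Int.cast_abs]
    refine h2.trans (le_of_eq ?_)
    rw [hE, hndef]
    push_cast
    ring
  have hc : ∀ j, |c j| ≤ (n : ℝ) * (E * η) := by
    intro j
    have h1 : |Adj.mulVec dv j| ≤ (n : ℝ) * (E * η) := by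
      unfold Matrix.mulVec dotProduct
      refine (Finset.abs_sum_le_sum_abs _ _).trans ?_
      have h2 : ∀ r ∈ (Finset.univ : Finset (Fin (h * k))), |Adj j r * dv r| ≤ E * η := by
        intro r _
        rw [abs_mul]
        exact mul_le_mul (hadj j r) (hdv r) (abs_nonneg _) hE0
      refine (Finset.sum_le_sum h2).trans ?_
      rw [Finset.sum_const, Finset.card_univ, Fintype.card_fin, nsmul_eq_mul]
    calc |c j| = |(D : ℝ)⁻¹| * |Adj.mulVec dv j| := abs_mul _ _
      _ ≤ 1 * ((n : ℝ) * (E * η)) := mul_le_mul hDinv h1 (abs_nonneg _) zero_le_one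
      _ = _ := one_mul _
  refine ⟨polyOf c, polyOf_natDegree hn c, ?_, ?_⟩
  · intro l i hl1 hl2 hi
    have h3 := congrFun hAc (finProdFinEquiv (⟨l - 1, by omega⟩, ⟨i, hi⟩))
    rw [hA, mulVec_eq] at h3
    simp only [dv, Equiv.symm_apply_apply] at h3
    have h4 : l - 1 + 1 = l := by omega
    simp only [h4] at h3
    exact h3
  · intro R x hR hx0 hxR
    have hR1 : 1 ≤ R := le_trans (by exact_mod_cast hh) hR
    have hn1 : (1 : ℝ) ≤ n := by exact_mod_cast hn
    have h1 : |(polyOf c).eval x| ≤ (n : ℝ) * ((n : ℝ) * (E * η) * R ^ n) := by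
      rw [polyOf_eval]
      refine (Finset.abs_sum_le_sum_abs _ _).trans ?_
      have h2 : ∀ j ∈ (Finset.univ : Finset (Fin (h * k))), |c j * x ^ (j : ℕ)| ≤
          (n : ℝ) * (E * η) * R ^ n := by
        intro j _
        rw [abs_mul, abs_of_nonneg (pow_nonneg hx0 _)]
        apply mul_le_mul (hc j) _ (pow_nonneg hx0 _) (by positivity)
        calc x ^ (j : ℕ) ≤ R ^ (j : ℕ) := pow_le_pow_left₀ hx0 hxR _
          _ ≤ R ^ n := pow_le_pow_right₀ hR1 j.2.le
      refine (Finset.sum_le_sum h2).trans ?_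
      rw [Finset.sum_const, Finset.card_univ, Fintype.card_fin, nsmul_eq_mul]
    refine h1.trans ?_
    have e1 : (n : ℝ) * ((n : ℝ) * (E * η) * R ^ n) = η * ((n : ℝ) ^ (n ^ 2 + n + 2) * R ^ n) := by
      rw [hE, ← pow_mul, ← pow_two]
      ring
    rw [e1]
    apply mul_le_mul_of_nonneg_left _ hη
    calc (n : ℝ) ^ (n ^ 2 + n + 2) * R ^ n
        ≤ (2 * (n : ℝ)) ^ (n ^ 2 + 2 * n) * R ^ (n ^ 2 + 2 * n) := by
          apply mul_le_mul _ _ (by positivity) (by positivity)
          · rcases Nat.lt_or_ge n 2 with hn2 | hn2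
            · have : n = 1 := by omega
              rw [this]
              norm_num
            · calc (n : ℝ) ^ (n ^ 2 + n + 2) ≤ (2 * (n : ℝ)) ^ (n ^ 2 + n + 2) :=
                    pow_le_pow_left₀ (by positivity) (by linarith) _
                _ ≤ (2 * (n : ℝ)) ^ (n ^ 2 + 2 * n) :=
                    pow_le_pow_right₀ (by linarith) (by omega)
          · exact pow_le_pow_right₀ hR1 (by nlinarith [sq_nonneg n])
      _ = (2 * (n : ℝ) * R) ^ (n ^ 2 + 2 * n) := by rw [← mul_pow]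

end Pool.Agent.DIO.H44
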