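import Pool.Agent.Helper40_Dio.Stmt

/-! # DIO, module ROL: Rolle with multiplicities -/

set_option autoImplicit false

namespace Pool.Agent.DIO.H44

open Pool.Agent.DIO

/-- Generalized Rolle theorem for a nondecreasing sequence of `N + 1` zeros. -/
theorem rolle_seq : ∀ (N : ℕ) (g : ℝ → ℝ), (∀ n : ℕ, ContDiff ℝ n g) → ∀ a : ℕ → ℝ,
    (∀ i j : ℕ, i ≤ j → j ≤ N → a i ≤ a j) →
    (∀ i j : ℕ, i ≤ j → j ≤ N → a i = a j → iteratedDeriv (j - i) g (a i) = 0) →
    ∃ ξ : ℝ, a 0 ≤ ξ ∧ ξ ≤ a N ∧ iteratedDeriv N g ξ = 0 := by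
  intro N
  induction N with
  | zero =>
    intro g _ a _ hz
    exact ⟨a 0, le_refl _, le_refl _, hz 0 0 (le_refl _) (le_refl _) rfl⟩
  | succ N ih =>
    intro g hg a hmono hz
    have hdiff : Differentiable ℝ g := (hg 1).differentiable (by norm_num)
    have hg0 : ∀ i, i ≤ N + 1 → g (a i) = 0 := by
      intro i hi
      have := hz i i (le_refl _) hi rfl
      rw [Nat.sub_self, iteratedDeriv_zero] at this
      exact this
    have hb : ∀ i : ℕ, ∃ b : ℝ, i ≤ N → a i ≤ b ∧ b ≤ a (i + 1) ∧ deriv g b = 0 ∧
        (a i < a (i + 1) → a i < b ∧ b < a (i + 1)) := by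
      intro i
      by_cases hi : i ≤ N
      · rcases (hmono i (i + 1) (Nat.le_succ i) (by omega)).lt_or_eq with h | h
        · obtain ⟨c, ⟨hc1, hc2⟩, hc3⟩ := exists_deriv_eq_zero (f := g) h
            (hdiff.continuous.continuousOn)
            (by rw [hg0 i (by omega), hg0 (i + 1) (by omega)])
          exact ⟨c, fun _ => ⟨hc1.le, hc2.le, hc3, fun _ => ⟨hc1, hc2⟩⟩⟩
        · refine ⟨a i, fun _ => ⟨le_refl _, h.le, ?_, fun h' => absurd h h'.ne⟩⟩
          have := hz i (i + 1) (Nat.le_succ i) (by omega) h
          rw [show i + 1 - i = 1 by omega, iteratedDeriv_one] at this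
          exact this
      · exact ⟨0, fun h => absurd h hi⟩
    choose b hb using hb
    have hg' : ∀ n : ℕ, ContDiff ℝ n (deriv g) := by
      intro n
      have h1 : ContDiff ℝ ((n : WithTop ℕ∞) + 1) g := by
        have := hg (n + 1)
        push_cast at this
        exact this
      exact (contDiff_succ_iff_deriv.1 h1).2.2
    obtain ⟨ξ, h1, h2, h3⟩ := ih (deriv g) hg' b (by
      intro i j hij hj
      rcases hij.lt_or_eq with h | h
      · calc b i ≤ a (i + 1) := (hb i (by omega)).2.1
          _ ≤ a j := hmono (i + 1) j h (by omega)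
          _ ≤ b j := (hb j hj).1
      · rw [h]) (by
      intro i j hij hj heq
      rcases hij.lt_or_eq with h | h
      · have hbi := hb i (by omega)
        have hbj := hb j hj
        have e1 : a (i + 1) ≤ a j := hmono (i + 1) j h (by omega)
        have e2 : b i = a (i + 1) := le_antisymm hbi.2.1 (by linarith [hbj.1])
        have e3 : b j = a j := le_antisymm (by linarith) hbj.1
        have e4 : a i = a (i + 1) := by
          by_contra hne
          have hlt : a i < a (i + 1) := lt_of_le_of_ne (hmono i (i + 1) (Nat.le_succ i) (by omega)) hne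
          linarith [(hbi.2.2.2 hlt).2]
        have e5 : a j = a (j + 1) := by
          by_contra hne
          have hlt : a j < a (j + 1) := lt_of_le_of_ne (hmono j (j + 1) (Nat.le_succ j) (by omega)) hne
          linarith [(hbj.2.2.2 hlt).1]
        have e6 := hz i (j + 1) (by omega) (by omega) (by rw [← e5, ← e3, ← heq, e2, e4])
        rw [show j + 1 - i = (j - i) + 1 by omega, iteratedDeriv_succ'] at e6
        rw [e2, ← e4]
        exact e6
      · subst h
        rw [Nat.sub_self, iteratedDeriv_zero]
        exact (hb i hj).2.2.1)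
    refine ⟨ξ, ?_, ?_, ?_⟩
    · exact le_trans (hb 0 (Nat.zero_le _)).1 h1
    · exact le_trans h2 (hb N (le_refl _)).2.1
    · rw [iteratedDeriv_succ']
      exact h3

theorem iteratedDeriv_poly (P : Polynomial ℝ) (n : ℕ) :
    iteratedDeriv n (fun y => P.eval y) = fun y => (Polynomial.derivative^[n] P).eval y := by
  induction n generalizing P with
  | zero => simp
  | succ n ih =>
    rw [iteratedDeriv_succ']
    have h : deriv (fun y => P.eval y) = fun y => (Polynomial.derivative P).eval y := by
      ext y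
      exact P.deriv
    rw [h, ih, Function.iterate_succ_apply]

/-- The polynomial with zeros of multiplicity `k` at `1, …, h`. -/
noncomputable def wP (h k : ℕ) : Polynomial ℝ :=
  ∏ l ∈ Finset.Icc 1 h, (Polynomial.X - Polynomial.C (l : ℝ)) ^ k

theorem wP_eval (h k : ℕ) (x : ℝ) : (wP h k).eval x = ∏ l ∈ Finset.Icc 1 h, (x - (l : ℝ)) ^ k := by
  unfold wP
  rw [Polynomial.eval_prod]
  apply Finset.prod_congr rfl
  intro l _
  rw [Polynomial.eval_pow, Polynomial.eval_sub, Polynomial.eval_X, Polynomial.eval_C]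

theorem wP_monic (h k : ℕ) : (wP h k).Monic :=
  Polynomial.monic_prod_of_monic _ _ fun l _ => (Polynomial.monic_X_sub_C _).pow k

theorem wP_natDegree (h k : ℕ) : (wP h k).natDegree = h * k := by
  unfold wP
  rw [Polynomial.natDegree_prod_of_monic _ _ fun l _ => (Polynomial.monic_X_sub_C _).pow k]
  have h1 : ∀ l ∈ Finset.Icc 1 h,
      ((Polynomial.X - Polynomial.C (l : ℝ)) ^ k : Polynomial ℝ).natDegree = k := by
    intro l _
    rw [Polynomial.natDegree_pow, Polynomial.natDegree_X_sub_C, mul_one]
  rw [Finset.sum_congr rfl h1, Finset.sum_const, Nat.card_Icc, Nat.add_sub_cancel, smul_eq_mul]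

theorem wP_zero (h k l i : ℕ) (h1 : 1 ≤ l) (h2 : l ≤ h) (hi : i < k) :
    (Polynomial.derivative^[i] (wP h k)).eval (l : ℝ) = 0 := by
  have hd : (Polynomial.X - Polynomial.C (l : ℝ)) ^ k ∣ wP h k :=
    Finset.dvd_prod_of_mem _ (Finset.mem_Icc.2 ⟨h1, h2⟩)
  have h3 := Polynomial.pow_sub_dvd_iterate_derivative_of_pow_dvd i hd
  have h4 : (Polynomial.X - Polynomial.C (l : ℝ)) ∣ Polynomial.derivative^[i] (wP h k) :=
    dvd_trans (dvd_pow_self _ (by omega)) h3
  exact Polynomial.dvd_iff_isRoot.1 h4

theorem wP_top (h k : ℕ) (x : ℝ) :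
    (Polynomial.derivative^[h * k] (wP h k)).eval x = ((h * k).factorial : ℝ) := by
  have h1 : (Polynomial.derivative^[h * k] (wP h k)).natDegree = 0 := by
    have := Polynomial.natDegree_iterate_derivative (wP h k) (h * k)
    rw [wP_natDegree] at this
    omega
  rw [Polynomial.eq_C_of_natDegree_eq_zero h1, Polynomial.eval_C, Polynomial.coeff_iterate_derivative,
    Nat.zero_add, Nat.descFactorial_self]
  have h2 : (wP h k).coeff (h * k) = 1 := by
    have := wP_monic h k
    unfold Polynomial.Monic Polynomial.leadingCoeff at this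
    rwa [wP_natDegree] at this
  rw [h2]
  simp

theorem rol : RolStatement := by
  intro f hf h k hh hk hz R x hR hx0 hxR
  have hRpos : 0 ≤ R := le_trans (Nat.cast_nonneg h) hR
  by_cases hint : ∃ l : ℕ, 1 ≤ l ∧ l ≤ h ∧ (l : ℝ) = x
  · obtain ⟨l, hl1, hl2, rfl⟩ := hint
    refine ⟨0, le_refl _, hRpos, ?_⟩
    have h1 : f (l : ℝ) = 0 := by
      have := hz l 0 hl1 hl2 (by omega)
      rwa [iteratedDeriv_zero] at this
    have h2 : ∏ l' ∈ Finset.Icc 1 h, ((l : ℝ) - (l' : ℝ)) ^ k = 0 := by
      apply Finset.prod_eq_zero (Finset.mem_Icc.2 ⟨hl1, hl2⟩)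
      rw [sub_self]
      exact zero_pow (by omega)
    rw [h1, h2, zero_mul, mul_zero]
  · push Not at hint
    set W : ℝ := (wP h k).eval x with hW
    set g : ℝ → ℝ := fun y => f y * W - f x * (wP h k).eval y with hg
    have hwc : ∀ n : ℕ, ContDiff ℝ n (fun y => (wP h k).eval y) := fun n => by
      have := Polynomial.contDiff_aeval (𝕜 := ℝ) (wP h k) n
      simpa using this
    have hgc : ∀ n : ℕ, ContDiff ℝ n g := by
      intro n
      exact ((hf n).mul contDiff_const).sub (contDiff_const.mul (hwc n))
    have hgd : ∀ (n : ℕ) (y : ℝ), iteratedDeriv n g y =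
        iteratedDeriv n f y * W - f x * (Polynomial.derivative^[n] (wP h k)).eval y := by
      intro n y
      have e1 : ContDiffAt ℝ n (fun y => f y * W) y := ((hf n).mul contDiff_const).contDiffAt
      have e2 : ContDiffAt ℝ n (fun y => f x * (wP h k).eval y) y :=
        (contDiff_const.mul (hwc n)).contDiffAt
      have e3 : iteratedDeriv n g y = iteratedDeriv n (fun y => f y * W) y -
          iteratedDeriv n (fun y => f x * (wP h k).eval y) y := iteratedDeriv_fun_sub e1 e2
      rw [e3, iteratedDeriv_mul_const_field, iteratedDeriv_const_mul_field, iteratedDeriv_poly]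
    have hgz : ∀ l i : ℕ, 1 ≤ l → l ≤ h → i < k → iteratedDeriv i g (l : ℝ) = 0 := by
      intro l i h1 h2 h3
      rw [hgd, hz l i h1 h2 h3, wP_zero h k l i h1 h2 h3, zero_mul, mul_zero, sub_zero]
    have hgx : g x = 0 := by
      simp only [hg]
      rw [← hW]
      ring
    -- number of points before x
    set q : ℕ := min h (⌈x⌉₊ - 1) with hq
    have hq1 : ∀ l : ℕ, 1 ≤ l → l ≤ q → (l : ℝ) < x := by
      intro l h1 h2
      have h3 : l < ⌈x⌉₊ := by
        have : l ≤ ⌈x⌉₊ - 1 := le_trans h2 (min_le_right _ _)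
        omega
      exact Nat.lt_ceil.1 h3
    have hq2 : ∀ l : ℕ, q < l → l ≤ h → x < (l : ℝ) := by
      intro l h1 h2
      have h3 : ¬ (l : ℝ) < x := by
        intro h4
        have h5 := Nat.lt_ceil.2 h4
        have : l ≤ q := le_min h2 (by omega)
        omega
      exact lt_of_le_of_ne (not_lt.1 h3) (fun e => hint l (by omega) h2 e.symm)
    have hqh : q ≤ h := min_le_left _ _
    set a : ℕ → ℝ := fun i => if i < q * k then ((i / k + 1 : ℕ) : ℝ) else
      if i = q * k then x else (((i - 1) / k + 1 : ℕ) : ℝ) with ha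
    have a1 : ∀ i, i < q * k → a i = ((i / k + 1 : ℕ) : ℝ) ∧ i / k + 1 ≤ q := by
      intro i hi
      refine ⟨if_pos hi, ?_⟩
      exact Nat.succ_le_of_lt ((Nat.div_lt_iff_lt_mul (by omega)).2 hi)
    have a2 : a (q * k) = x := by
      simp only [ha]
      rw [if_neg (lt_irrefl _)]
      simp
    have a3 : ∀ i, q * k < i → i ≤ h * k → a i = (((i - 1) / k + 1 : ℕ) : ℝ) ∧
        q < (i - 1) / k + 1 ∧ (i - 1) / k + 1 ≤ h := by
      intro i hi hi'
      refine ⟨?_, ?_, ?_⟩
      · simp only [ha]
        rw [if_neg (by omega), if_neg (by omega)]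
      · exact Nat.lt_succ_of_le ((Nat.le_div_iff_mul_le (by omega)).2 (by omega))
      · exact Nat.succ_le_of_lt ((Nat.div_lt_iff_lt_mul (by omega)).2 (by omega))
    have alo : ∀ i, i < q * k → a i < x := by
      intro i hi
      obtain ⟨e1, e2⟩ := a1 i hi
      rw [e1]
      exact hq1 _ (Nat.le_add_left 1 _) e2
    have ahi : ∀ i, q * k < i → i ≤ h * k → x < a i := by
      intro i hi hi'
      obtain ⟨e1, e2, e3⟩ := a3 i hi hi'
      rw [e1]
      exact hq2 _ e2 e3
    have same : ∀ (u v : ℕ), u ≤ v → u / k = v / k → v - u < k := by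
      intro u v huv he
      have h1 := Nat.div_add_mod u k
      have h2 := Nat.div_add_mod v k
      have h3 := Nat.mod_lt v (show 0 < k by omega)
      rw [he] at h1
      omega
    obtain ⟨ξ, h1, h2, h3⟩ := rolle_seq (h * k) g hgc a (by
      intro i j hij hj
      rcases lt_trichotomy i (q * k) with hi | hi | hi
      · rcases lt_trichotomy j (q * k) with hj' | hj' | hj'
        · rw [(a1 i hi).1, (a1 j hj').1]
          have : i / k ≤ j / k := Nat.div_le_div_right hij
          exact_mod_cast Nat.succ_le_succ this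
        · rw [hj', a2]
          exact (alo i hi).le
        · exact ((alo i hi).trans (ahi j hj' hj)).le
      · rcases lt_trichotomy j (q * k) with hj' | hj' | hj'
        · omega
        · rw [hi, hj']
        · rw [hi, a2]
          exact (ahi j hj' hj).le
      · rw [(a3 i hi (by omega)).1, (a3 j (by omega) hj).1]
        have : (i - 1) / k ≤ (j - 1) / k := Nat.div_le_div_right (by omega)
        exact_mod_cast Nat.succ_le_succ this) (by
      intro i j hij hj heq
      rcases lt_trichotomy i (q * k) with hi | hi | hi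
      · rcases lt_trichotomy j (q * k) with hj' | hj' | hj'
        · have e1 := a1 i hi
          have e2 := a1 j hj'
          rw [e1.1, e2.1] at heq
          have e3 : i / k + 1 = j / k + 1 := by exact_mod_cast heq
          rw [e1.1]
          exact hgz _ _ (Nat.le_add_left 1 _) (e1.2.trans hqh) (same i j hij (by omega))
        · rw [hj', a2] at heq
          exact absurd heq (alo i hi).ne
        · exact absurd heq ((alo i hi).trans (ahi j hj' hj)).ne
      · rcases lt_trichotomy j (q * k) with hj' | hj' | hj'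
        · omega
        · rw [hi, hj', Nat.sub_self, a2, iteratedDeriv_zero]
          exact hgx
        · rw [hi, a2] at heq
          exact absurd heq (ahi j hj' hj).ne
      · have e1 := a3 i hi (by omega)
        have e2 := a3 j (by omega) hj
        rw [e1.1, e2.1] at heq
        have e3 : (i - 1) / k + 1 = (j - 1) / k + 1 := by exact_mod_cast heq
        rw [e1.1]
        have e4 := same (i - 1) (j - 1) (by omega) (by omega)
        exact hgz _ _ (Nat.le_add_left 1 _) e1.2.2 (by omega))
    have hlo : 0 ≤ a 0 := by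
      rcases Nat.eq_zero_or_pos (q * k) with h0 | h0
      · have : a (q * k) = x := a2
        rw [h0] at this
        rw [this]; exact hx0
      · rw [(a1 0 h0).1]
        exact Nat.cast_nonneg _
    have hhi : a (h * k) ≤ R := by
      rcases lt_or_ge (q * k) (h * k) with h0 | h0
      · obtain ⟨e1, e2, e3⟩ := a3 (h * k) h0 (le_refl _)
        rw [e1]
        calc (((h * k - 1) / k + 1 : ℕ) : ℝ) ≤ (h : ℝ) := by exact_mod_cast e3
          _ ≤ R := hR
      · have : h * k = q * k := le_antisymm h0 (Nat.mul_le_mul_right k hqh)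
        rw [this, a2]
        exact hxR
    refine ⟨ξ, hlo.trans h1, h2.trans hhi, ?_⟩
    rw [hgd, wP_top] at h3
    rw [← wP_eval, ← hW]
    linarith

end Pool.Agent.DIO.H44
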